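import Pool.Agent.Q255.ZS.Stm

set_option autoImplicit false

/-!
# Project ZS of helper255, job LIP (Lipschitz and trivial bounds), by helper275

The statement `S_LIP` needs the hypothesis `0 ≤ r` (for `k = 0` the other hypotheses are empty).
-/

namespace Pool.Agent.Q275.ZS

open MeasureTheory Filter Topology Finset
open Q289.PAM
open Pool.Agent.Q255.RM
open Pool.Agent.Q255.ZS

noncomputable section

/-- LIP with `0 ≤ r` -/
def S_LIP0 : Prop := ∀ k : ℕ, ∃ (B : ℕ) (C : ℝ), 0 < C ∧ ∀ (ω : ℕ → UnitAddCircle) (N : ℕ)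
  (α β α' β' : Fin k → ℝ) (r : ℝ), 1 ≤ N → 0 ≤ r → (∀ j, |α j - α' j| ≤ r) →
  (∀ j, |β j - β' j| ≤ r) →
  Continuous (FF ω α β N) ∧ ∀ t : ℝ,
    ‖FF ω α β N t‖ ≤ C * (N : ℝ) ^ B ∧
    ‖FF ω α β N t - FF ω α' β' N t‖ ≤ C * (N : ℝ) ^ B * r

lemma exp_lip (x y : ℝ) : ‖Complex.exp ((x : ℝ) * Complex.I) - Complex.exp ((y : ℝ) * Complex.I)‖ ≤
    |x - y| := by
  have h1 : Complex.exp ((x : ℝ) * Complex.I) - Complex.exp ((y : ℝ) * Complex.I) =
      Complex.exp ((y : ℝ) * Complex.I) * (Complex.exp (Complex.I * ((x - y : ℝ) : ℂ)) - 1) := by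
    rw [mul_sub, mul_one, ← Complex.exp_add]
    congr 2
    push_cast
    ring
  rw [h1, norm_mul, Complex.norm_exp_ofReal_mul_I, one_mul]
  exact Real.norm_exp_I_mul_ofReal_sub_one_le

lemma prod_lip {ι : Type} (s : Finset ι) (x y : ι → ℂ) (M d : ℝ) (hM : 1 ≤ M) (hd : 0 ≤ d)
    (hx : ∀ i ∈ s, ‖x i‖ ≤ M) (hy : ∀ i ∈ s, ‖y i‖ ≤ M) (hxy : ∀ i ∈ s, ‖x i - y i‖ ≤ d) :
    ‖∏ i ∈ s, x i‖ ≤ M ^ s.card ∧ ‖∏ i ∈ s, x i - ∏ i ∈ s, y i‖ ≤ s.card * M ^ s.card * d := by
  classical
  have key : ∀ (z : ι → ℂ) (s : Finset ι), (∀ i ∈ s, ‖z i‖ ≤ M) → ‖∏ i ∈ s, z i‖ ≤ M ^ s.card := by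
    intro z s hz
    rw [norm_prod]
    calc ∏ i ∈ s, ‖z i‖ ≤ ∏ _i ∈ s, M := prod_le_prod (fun i _ => norm_nonneg _) hz
      _ = M ^ s.card := by rw [prod_const]
  refine ⟨key x s hx, ?_⟩
  induction s using Finset.induction_on with
  | empty => simp
  | insert a s ha ih =>
    have h1 := ih (fun i hi => hx i (mem_insert_of_mem hi)) (fun i hi => hy i (mem_insert_of_mem hi))
      (fun i hi => hxy i (mem_insert_of_mem hi))
    rw [prod_insert ha, prod_insert ha, card_insert_of_notMem ha]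
    have h2 : x a * ∏ i ∈ s, x i - y a * ∏ i ∈ s, y i =
        x a * (∏ i ∈ s, x i - ∏ i ∈ s, y i) + (x a - y a) * ∏ i ∈ s, y i := by ring
    rw [h2]
    have h3 := key y s fun i hi => hy i (mem_insert_of_mem hi)
    have hMp : (0 : ℝ) ≤ M ^ s.card := by positivity
    calc ‖x a * (∏ i ∈ s, x i - ∏ i ∈ s, y i) + (x a - y a) * ∏ i ∈ s, y i‖ ≤
          ‖x a‖ * ‖∏ i ∈ s, x i - ∏ i ∈ s, y i‖ + ‖x a - y a‖ * ‖∏ i ∈ s, y i‖ := by
          refine (norm_add_le _ _).trans ?_
          rw [norm_mul, norm_mul]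
      _ ≤ M * (s.card * M ^ s.card * d) + d * M ^ s.card := by
          refine add_le_add ?_ ?_
          · exact mul_le_mul (hx a (mem_insert_self _ _)) h1 (norm_nonneg _) (by linarith)
          · exact mul_le_mul (hxy a (mem_insert_self _ _)) h3 (norm_nonneg _) hd
      _ ≤ ((s.card + 1 : ℕ) : ℝ) * M ^ (s.card + 1) * d := by
          rw [pow_succ]
          push_cast
          have h4 : d * M ^ s.card ≤ M ^ s.card * M * d := by
            have h5 : 0 ≤ M ^ s.card * d := by positivity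
            nlinarith
          nlinarith

lemma log_le_N {n N : ℕ} (h1 : 1 ≤ n) (h2 : n ≤ N) : 0 ≤ Real.log n ∧ Real.log n ≤ N := by
  have hn : (1 : ℝ) ≤ n := by exact_mod_cast h1
  have hN : (n : ℝ) ≤ N := by exact_mod_cast h2
  refine ⟨Real.log_nonneg hn, ?_⟩
  have := Real.log_le_sub_one_of_pos (show (0 : ℝ) < n by linarith)
  linarith

lemma inv_sqrt_le {n : ℕ} (h1 : 1 ≤ n) : 0 ≤ (Real.sqrt n)⁻¹ ∧ (Real.sqrt n)⁻¹ ≤ 1 := by
  refine ⟨by positivity, ?_⟩
  have hn : (1 : ℝ) ≤ n := by exact_mod_cast h1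
  exact inv_le_one_of_one_le₀ (Real.one_le_sqrt.mpr hn)

lemma g_cont {n : ℕ} (hn : n ≠ 0) : Continuous fun t => g t n := by
  have : (fun t => g t n) = fun t => (((Real.sqrt n)⁻¹ : ℝ) : ℂ) *
      Complex.exp ((-(t * Real.log n) : ℝ) * Complex.I) := funext fun t => g_eq_exp t hn
  rw [this]
  fun_prop

lemma ZN_cont (ω : ℕ → UnitAddCircle) (N : ℕ) : Continuous (ZN ω N) := by
  unfold ZN
  refine continuous_finsetSum _ fun n hn => ?_
  have h1 := (mem_Icc.mp hn).1
  exact continuous_const.mul (g_cont (by omega))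

lemma ZN_bd (ω : ℕ → UnitAddCircle) (N : ℕ) (t : ℝ) : ‖ZN ω N t‖ ≤ N := by
  unfold ZN
  calc ‖∑ n ∈ Icc 1 N, f ω n * g t n‖ ≤ ∑ n ∈ Icc 1 N, (1 : ℝ) := by
        refine norm_sum_le_of_le _ fun n hn => ?_
        have h1 := (mem_Icc.mp hn).1
        rw [norm_mul, norm_f, one_mul, norm_g t (by omega)]
        exact (inv_sqrt_le h1).2
    _ = N := by simp

lemma ZN_lip (ω : ℕ → UnitAddCircle) (N : ℕ) (s t : ℝ) :
    ‖ZN ω N s - ZN ω N t‖ ≤ (N : ℝ) ^ 2 * |s - t| := by
  unfold ZN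
  rw [← sum_sub_distrib]
  calc ‖∑ n ∈ Icc 1 N, (f ω n * g s n - f ω n * g t n)‖ ≤ ∑ n ∈ Icc 1 N, (N : ℝ) * |s - t| := by
        refine norm_sum_le_of_le _ fun n hn => ?_
        obtain ⟨h1, h2⟩ := mem_Icc.mp hn
        obtain ⟨h3, h4⟩ := log_le_N h1 h2
        obtain ⟨h5, h6⟩ := inv_sqrt_le h1
        rw [← mul_sub, norm_mul, norm_f, one_mul, g_eq_exp s (by omega), g_eq_exp t (by omega),
          ← mul_sub, norm_mul, Complex.norm_real, Real.norm_of_nonneg h5]
        have h7 := exp_lip (-(s * Real.log n)) (-(t * Real.log n))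
        have h8 : |(-(s * Real.log n)) - (-(t * Real.log n))| = |s - t| * Real.log n := by
          rw [← abs_of_nonneg h3, ← abs_mul, abs_of_nonneg h3, ← abs_neg]
          congr 1
          ring
        rw [h8] at h7
        calc _ ≤ 1 * (|s - t| * Real.log n) := mul_le_mul h6 h7 (norm_nonneg _) zero_le_one
          _ ≤ (N : ℝ) * |s - t| := by
              rw [one_mul, mul_comm]
              exact mul_le_mul_of_nonneg_right h4 (abs_nonneg _)
    _ = (N : ℝ) ^ 2 * |s - t| := by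
        rw [sum_const, nsmul_eq_mul, Nat.card_Icc, Nat.add_sub_cancel]
        ring

lemma cpow_eq (α : ℝ) {v : ℕ} (hv : 1 ≤ v) :
    (v : ℂ) ^ (-((α : ℂ) * Complex.I)) = Complex.exp ((-(α * Real.log v) : ℝ) * Complex.I) := by
  have hn' : (v : ℂ) ≠ 0 := by
    have : v ≠ 0 := by omega
    exact_mod_cast this
  rw [Complex.cpow_def_of_ne_zero hn', ← Complex.natCast_log]
  congr 1
  push_cast
  ring

lemma card_tuples (k N m : ℕ) :
    ((((Fintype.piFinset fun _ : Fin k => Icc 1 N).filter (fun v => ∏ i, v i = m)).card : ℕ) : ℝ) ≤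
      (N : ℝ) ^ k := by
  have h1 : ((Fintype.piFinset fun _ : Fin k => Icc 1 N).filter (fun v => ∏ i, v i = m)).card ≤
      N ^ k := by
    calc _ ≤ (Fintype.piFinset fun _ : Fin k => Icc 1 N).card := card_filter_le _ _
      _ = N ^ k := by
          rw [Fintype.card_piFinset_const, Nat.card_Icc, Nat.add_sub_cancel]
  exact_mod_cast h1

lemma tau_bd {k : ℕ} (α : Fin k → ℝ) (N m : ℕ) : ‖tau α N m‖ ≤ (N : ℝ) ^ k := by
  unfold tau
  calc _ ≤ ∑ v ∈ (Fintype.piFinset fun _ : Fin k => Icc 1 N).filter (fun v => ∏ i, v i = m),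
        (1 : ℝ) := by
        refine norm_sum_le_of_le _ fun v hv => ?_
        rw [norm_prod]
        refine le_of_eq (prod_eq_one fun i _ => ?_)
        have h1 := (mem_Icc.mp ((Fintype.mem_piFinset.mp (mem_filter.mp hv).1) i)).1
        rw [cpow_eq _ h1, Complex.norm_exp_ofReal_mul_I]
    _ ≤ (N : ℝ) ^ k := by
        rw [sum_const, nsmul_eq_mul, mul_one]
        exact card_tuples k N m

lemma tau_lip {k : ℕ} (α α' : Fin k → ℝ) (N m : ℕ) (r : ℝ) (hr : 0 ≤ r)
    (h : ∀ j, |α j - α' j| ≤ r) : ‖tau α N m - tau α' N m‖ ≤ (N : ℝ) ^ k * (k * (N * r)) := by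
  unfold tau
  rw [← sum_sub_distrib]
  calc _ ≤ ∑ v ∈ (Fintype.piFinset fun _ : Fin k => Icc 1 N).filter (fun v => ∏ i, v i = m),
        (k * (N * r) : ℝ) := by
        refine norm_sum_le_of_le _ fun v hv => ?_
        have h0 : ∀ i, 1 ≤ v i ∧ v i ≤ N := fun i =>
          mem_Icc.mp ((Fintype.mem_piFinset.mp (mem_filter.mp hv).1) i)
        have h1 := (prod_lip (univ : Finset (Fin k))
          (fun i => (v i : ℂ) ^ (-((α i : ℂ) * Complex.I)))
          (fun i => (v i : ℂ) ^ (-((α' i : ℂ) * Complex.I))) 1 (N * r) le_rfl (by positivity)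
          (fun i _ => ?_) (fun i _ => ?_) (fun i _ => ?_)).2
        · simpa using h1
        · rw [cpow_eq _ (h0 i).1, Complex.norm_exp_ofReal_mul_I]
        · rw [cpow_eq _ (h0 i).1, Complex.norm_exp_ofReal_mul_I]
        · rw [cpow_eq _ (h0 i).1, cpow_eq _ (h0 i).1]
          obtain ⟨h3, h4⟩ := log_le_N (h0 i).1 (h0 i).2
          refine (exp_lip _ _).trans ?_
          have h8 : |(-(α i * Real.log (v i))) - (-(α' i * Real.log (v i)))| =
              Real.log (v i) * |α i - α' i| := by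
            rw [← abs_of_nonneg h3, ← abs_mul, abs_of_nonneg h3, ← abs_neg]
            congr 1
            ring
          rw [h8]
          exact mul_le_mul h4 (h i) (abs_nonneg _) (Nat.cast_nonneg _)
    _ ≤ (N : ℝ) ^ k * (k * (N * r)) := by
        rw [sum_const, nsmul_eq_mul]
        exact mul_le_mul_of_nonneg_right (card_tuples k N m) (by positivity)

lemma DS_bd {k : ℕ} (α β : Fin k → ℝ) (N : ℕ) : ‖DS α β N‖ ≤ (N : ℝ) ^ (3 * k) := by
  unfold DS
  calc _ ≤ ∑ m ∈ Icc 1 (N ^ k), (N : ℝ) ^ k * (N : ℝ) ^ k := by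
        refine norm_sum_le_of_le _ fun m hm => ?_
        have h1 : (1 : ℝ) ≤ m := by exact_mod_cast (mem_Icc.mp hm).1
        rw [norm_div, norm_mul, norm_star, Complex.norm_natCast]
        refine (div_le_self (by positivity) h1).trans ?_
        exact mul_le_mul (tau_bd α N m) (tau_bd β N m) (norm_nonneg _) (by positivity)
    _ = (N : ℝ) ^ (3 * k) := by
        rw [sum_const, nsmul_eq_mul, Nat.card_Icc, Nat.add_sub_cancel, Nat.cast_pow]
        ring

lemma DS_lip {k : ℕ} (α β α' β' : Fin k → ℝ) (N : ℕ) (r : ℝ) (hr : 0 ≤ r)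
    (h : ∀ j, |α j - α' j| ≤ r) (h' : ∀ j, |β j - β' j| ≤ r) :
    ‖DS α β N - DS α' β' N‖ ≤ 2 * k * (N : ℝ) ^ (3 * k + 1) * r := by
  unfold DS
  rw [← sum_sub_distrib]
  calc _ ≤ ∑ m ∈ Icc 1 (N ^ k), ((N : ℝ) ^ k * (k * (N * r)) * (N : ℝ) ^ k +
        (N : ℝ) ^ k * ((N : ℝ) ^ k * (k * (N * r)))) := by
        refine norm_sum_le_of_le _ fun m hm => ?_
        have h1 : (1 : ℝ) ≤ m := by exact_mod_cast (mem_Icc.mp hm).1
        have h2 : tau α N m * star (tau β N m) / m - tau α' N m * star (tau β' N m) / m =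
            ((tau α N m - tau α' N m) * star (tau β N m) +
              tau α' N m * star (tau β N m - tau β' N m)) / m := by
          rw [star_sub]
          ring
        rw [h2, norm_div, Complex.norm_natCast]
        refine (div_le_self (norm_nonneg _) h1).trans ?_
        refine (norm_add_le _ _).trans ?_
        rw [norm_mul, norm_mul, norm_star, norm_star]
        refine add_le_add ?_ ?_
        · exact mul_le_mul (tau_lip α α' N m r hr h) (tau_bd β N m) (norm_nonneg _)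
            (by positivity)
        · exact mul_le_mul (tau_bd α' N m) (tau_lip β β' N m r hr h') (norm_nonneg _)
            (by positivity)
    _ = 2 * k * (N : ℝ) ^ (3 * k + 1) * r := by
        rw [sum_const, nsmul_eq_mul, Nat.card_Icc, Nat.add_sub_cancel, Nat.cast_pow]
        ring

theorem t_LIP0 : S_LIP0 := by
  intro k
  refine ⟨3 * k + 2, 4 * k + 2, by positivity, ?_⟩
  intro ω N α β α' β' r hN hr h h'
  have hN1 : (1 : ℝ) ≤ N := by exact_mod_cast hN
  have hN0 : (0 : ℝ) ≤ N := by linarith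
  refine ⟨?_, fun t => ⟨?_, ?_⟩⟩
  · unfold FF
    have hZ := ZN_cont ω N
    refine Continuous.sub (Continuous.mul ?_ ?_) continuous_const
    · exact continuous_finsetProd _ fun j _ => hZ.comp (continuous_id.add continuous_const)
    · exact continuous_finsetProd _ fun j _ => (hZ.comp (continuous_id.add continuous_const)).star
  · have p1 := (prod_lip (univ : Finset (Fin k)) (fun j => ZN ω N (t + α j))
      (fun j => ZN ω N (t + α j)) N 0 hN1 le_rfl (fun j _ => ZN_bd ω N _) (fun j _ => ZN_bd ω N _)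
      (fun j _ => by simp)).1
    have p2 := (prod_lip (univ : Finset (Fin k)) (fun j => star (ZN ω N (t + β j)))
      (fun j => star (ZN ω N (t + β j))) N 0 hN1 le_rfl
      (fun j _ => by rw [norm_star]; exact ZN_bd ω N _)
      (fun j _ => by rw [norm_star]; exact ZN_bd ω N _)
      (fun j _ => by simp)).1
    rw [card_univ, Fintype.card_fin] at p1 p2
    unfold FF
    calc _ ≤ (N : ℝ) ^ k * (N : ℝ) ^ k + (N : ℝ) ^ (3 * k) := by
          refine (norm_sub_le _ _).trans (add_le_add ?_ (DS_bd α β N))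
          rw [norm_mul]
          exact mul_le_mul p1 p2 (norm_nonneg _) (by positivity)
      _ ≤ (N : ℝ) ^ (3 * k + 2) + (N : ℝ) ^ (3 * k + 2) := by
          rw [← pow_add]
          exact add_le_add (pow_le_pow_right₀ hN1 (by omega)) (pow_le_pow_right₀ hN1 (by omega))
      _ ≤ (4 * k + 2) * (N : ℝ) ^ (3 * k + 2) := by
          have h1 : (0 : ℝ) ≤ (N : ℝ) ^ (3 * k + 2) := by positivity
          have h2 : (0 : ℝ) ≤ k := Nat.cast_nonneg k
          nlinarith
  · have hd : ∀ a a' : ℝ, |a - a'| ≤ r → ‖ZN ω N (t + a) - ZN ω N (t + a')‖ ≤ (N : ℝ) ^ 2 * r := by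
      intro a a' ha
      refine (ZN_lip ω N _ _).trans ?_
      have h1 : t + a - (t + a') = a - a' := by ring
      rw [h1]
      exact mul_le_mul_of_nonneg_left ha (by positivity)
    have p1 := prod_lip (univ : Finset (Fin k)) (fun j => ZN ω N (t + α j))
      (fun j => ZN ω N (t + α' j)) N ((N : ℝ) ^ 2 * r) hN1 (by positivity)
      (fun j _ => ZN_bd ω N _) (fun j _ => ZN_bd ω N _) (fun j _ => hd _ _ (h j))
    have p1' := (prod_lip (univ : Finset (Fin k)) (fun j => ZN ω N (t + α' j))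
      (fun j => ZN ω N (t + α j)) N ((N : ℝ) ^ 2 * r) hN1 (by positivity)
      (fun j _ => ZN_bd ω N _) (fun j _ => ZN_bd ω N _)
      (fun j _ => hd _ _ (by rw [abs_sub_comm]; exact h j))).1
    have p2 := prod_lip (univ : Finset (Fin k)) (fun j => star (ZN ω N (t + β j)))
      (fun j => star (ZN ω N (t + β' j))) N ((N : ℝ) ^ 2 * r) hN1 (by positivity)
      (fun j _ => by rw [norm_star]; exact ZN_bd ω N _)
      (fun j _ => by rw [norm_star]; exact ZN_bd ω N _)
      (fun j _ => by rw [← star_sub, norm_star]; exact hd _ _ (h' j))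
    rw [card_univ, Fintype.card_fin] at p1 p2 p1'
    unfold FF
    have e1 : (∏ j, ZN ω N (t + α j)) * (∏ j, star (ZN ω N (t + β j))) - DS α β N -
        ((∏ j, ZN ω N (t + α' j)) * (∏ j, star (ZN ω N (t + β' j))) - DS α' β' N) =
        (∏ j, ZN ω N (t + α j) - ∏ j, ZN ω N (t + α' j)) * (∏ j, star (ZN ω N (t + β j))) +
        (∏ j, ZN ω N (t + α' j)) * (∏ j, star (ZN ω N (t + β j)) -
          ∏ j, star (ZN ω N (t + β' j))) - (DS α β N - DS α' β' N) := by ring
    rw [e1]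
    calc _ ≤ (k * (N : ℝ) ^ k * ((N : ℝ) ^ 2 * r)) * (N : ℝ) ^ k +
          (N : ℝ) ^ k * (k * (N : ℝ) ^ k * ((N : ℝ) ^ 2 * r)) +
          2 * k * (N : ℝ) ^ (3 * k + 1) * r := by
          refine (norm_sub_le _ _).trans (add_le_add ((norm_add_le _ _).trans
            (add_le_add ?_ ?_)) (DS_lip α β α' β' N r hr h h'))
          · rw [norm_mul]
            exact mul_le_mul p1.2 p2.1 (norm_nonneg _) (by positivity)
          · rw [norm_mul]
            exact mul_le_mul p1' p2.2 (norm_nonneg _) (by positivity)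
      _ = 2 * k * r * (N : ℝ) ^ (2 * k + 2) + 2 * k * r * (N : ℝ) ^ (3 * k + 1) := by ring
      _ ≤ 2 * k * r * (N : ℝ) ^ (3 * k + 2) + 2 * k * r * (N : ℝ) ^ (3 * k + 2) := by
          refine add_le_add (mul_le_mul_of_nonneg_left (pow_le_pow_right₀ hN1 (by omega))
            (by positivity)) (mul_le_mul_of_nonneg_left (pow_le_pow_right₀ hN1 (by omega))
            (by positivity))
      _ ≤ (4 * k + 2) * (N : ℝ) ^ (3 * k + 2) * r := by
          have h1 : (0 : ℝ) ≤ (N : ℝ) ^ (3 * k + 2) * r := by positivity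
          nlinarith

end

end Pool.Agent.Q275.ZS
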