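import Pool.Agent.Q255.ZS.Stm

set_option autoImplicit false

/-!
# Project ZS of helper255, job LOZ (lower bound for the mean square), by helper275
-/

namespace Pool.Agent.Q275.ZS

open MeasureTheory Filter Topology Finset
open Q289.PAM
open Pool.Agent.Q255.RM
open Pool.Agent.Q255.ZS

noncomputable section

lemma dk_pos (k N a : ℕ) (hk : 1 ≤ k) (ha : 1 ≤ a) (haN : a ≤ N) : 1 ≤ dk k N a := by
  obtain ⟨k', rfl⟩ : ∃ k', k = k' + 1 := ⟨k - 1, by omega⟩
  unfold dk
  rw [Nat.one_le_iff_ne_zero, Ne, card_eq_zero, ← Ne, ← nonempty_iff_ne_empty]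
  refine ⟨Fin.cons a (fun _ => 1), ?_⟩
  rw [mem_filter, Fintype.mem_piFinset]
  refine ⟨fun i => ?_, ?_⟩
  · refine Fin.cases ?_ (fun j => ?_) i
    · rw [Fin.cons_zero, mem_Icc]
      exact ⟨ha, haN⟩
    · rw [Fin.cons_succ, mem_Icc]
      exact ⟨le_rfl, ha.trans haN⟩
  · rw [Fin.prod_cons]
    simp

lemma tau_zero (k N m : ℕ) : tau (fun _ : Fin k => (0 : ℝ)) N m = dk k N m := by
  unfold tau dk
  rw [card_eq_sum_ones, Nat.cast_sum]
  refine sum_congr rfl fun v _ => ?_
  simp

lemma FF_zero (ω : ℕ → UnitAddCircle) (k N : ℕ) (t : ℝ) :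
    FF ω (fun _ : Fin k => (0 : ℝ)) (fun _ => (0 : ℝ)) N t =
      ∑ x ∈ OD (N ^ k), ((dk k N x.1 : ℂ) * dk k N x.2 * E x t) * (f ω x.1 * star (f ω x.2)) := by
  have h1 : (∏ _j : Fin k, ZN ω N (t + 0)) = ∑ m ∈ Icc 1 (N ^ k), (dk k N m : ℂ) *
      (f ω m * g t m) := by
    rw [prod_const, card_univ, Fintype.card_fin, add_zero]
    exact pow_expand ω t k N
  have h2 : (∏ _j : Fin k, star (ZN ω N (t + 0))) = ∑ m ∈ Icc 1 (N ^ k), (dk k N m : ℂ) *
      star (f ω m * g t m) := by
    rw [← star_prod, h1, star_sum]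
    refine sum_congr rfl fun m _ => ?_
    rw [star_mul', show star (dk k N m : ℂ) = dk k N m from Complex.conj_natCast _]
  have h3 : DS (fun _ : Fin k => (0 : ℝ)) (fun _ => (0 : ℝ)) N =
      ∑ x ∈ ((Icc 1 (N ^ k)) ×ˢ (Icc 1 (N ^ k))).filter (fun x => x.1 = x.2),
        ((dk k N x.1 : ℂ) * dk k N x.2 * E x t) * (f ω x.1 * star (f ω x.2)) := by
    unfold DS
    have h4 : ((Icc 1 (N ^ k)) ×ˢ (Icc 1 (N ^ k))).filter (fun x => x.1 = x.2) =
        (Icc 1 (N ^ k)).image fun m => (m, m) := by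
      ext ⟨a, b⟩
      simp only [mem_filter, mem_product, mem_image, Prod.mk.injEq]
      constructor
      · rintro ⟨⟨h5, h6⟩, h7⟩
        exact ⟨a, h5, rfl, h7⟩
      · rintro ⟨c, h5, rfl, rfl⟩
        exact ⟨⟨h5, h5⟩, rfl⟩
    rw [h4, sum_image (fun a _ b _ h => (Prod.mk.inj h).1)]
    refine sum_congr rfl fun m hm => ?_
    have hm0 : m ≠ 0 := by
      have := (mem_Icc.mp hm).1
      omega
    have hs : star (dk k N m : ℂ) = dk k N m := Complex.conj_natCast _
    have hf : f ω m * star (f ω m) = 1 := by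
      rw [Complex.star_def, Complex.mul_conj, Complex.normSq_eq_norm_sq, norm_f]
      norm_num
    rw [tau_zero, hs]
    simp only
    rw [E_diag hm0, hf]
    push_cast
    ring
  unfold FF
  rw [h1, h2, h3, sum_mul_sum, ← sum_product', ← sum_filter_add_sum_filter_not
    ((Icc 1 (N ^ k)) ×ˢ (Icc 1 (N ^ k))) (fun x => x.1 = x.2), add_comm, add_sub_assoc]
  have h5 : ∀ x : ℕ × ℕ, (dk k N x.1 : ℂ) * (f ω x.1 * g t x.1) *
      ((dk k N x.2 : ℂ) * star (f ω x.2 * g t x.2)) =
      ((dk k N x.1 : ℂ) * dk k N x.2 * E x t) * (f ω x.1 * star (f ω x.2)) := by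
    intro x
    unfold E
    rw [star_mul']
    ring
  simp only [h5, sub_self, add_zero]
  rfl

/-- the integral over the window is a quadratic form -/
lemma int_FF (ω : ℕ → UnitAddCircle) (k N : ℕ) (u H : ℝ) :
    ∫ t in u..(u + H), FF ω (fun _ : Fin k => (0 : ℝ)) (fun _ => (0 : ℝ)) N t =
      Y (OD (N ^ k)) (fun x => (dk k N x.1 : ℂ) * dk k N x.2 * J x u (u + H)) ω := by
  simp only [FF_zero]
  have hx0 : ∀ x ∈ OD (N ^ k), x.1 ≠ 0 ∧ x.2 ≠ 0 := fun x hx => by
    have := mem_OD.mp hx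
    omega
  rw [intervalIntegral.integral_finsetSum]
  · unfold Y J
    refine sum_congr rfl fun x _ => ?_
    rw [intervalIntegral.integral_mul_const, intervalIntegral.integral_const_mul]
  · intro x hx
    refine Continuous.intervalIntegrable ?_ _ _
    exact (continuous_const.mul (E_cont (hx0 x hx).1 (hx0 x hx).2)).mul continuous_const

/-- Bessel -/
lemma bessel (S : Finset (ℕ × ℕ)) (c : ℕ × ℕ → ℂ) (hS : ∀ x ∈ S, x.1 ≠ 0 ∧ x.2 ≠ 0)
    (A : Finset ℕ) (hA : ∀ a ∈ A, 1 ≤ a) :
    ∑ a ∈ A, ‖∑ x ∈ S, c x * (if x.1 * (a + 1) = a * x.2 then 1 else 0)‖ ^ 2 ≤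
      ∫ ω, ‖Y S c ω‖ ^ 2 ∂PT := by
  set C : ℕ → ℂ := fun a => ∑ x ∈ S, c x * (if x.1 * (a + 1) = a * x.2 then 1 else 0) with hC
  set Q : (ℕ → UnitAddCircle) → ℂ := fun ω => ∑ a ∈ A, C a * (f ω a * star (f ω (a + 1))) with hQ
  have hYc := Y_cont S c
  have hφc : ∀ a, Continuous fun ω => f ω a * star (f ω (a + 1)) := fun a =>
    (f_cont a).mul (f_cont (a + 1)).star
  have hQc : Continuous Q := continuous_finsetSum _ fun a _ => continuous_const.mul (hφc a)
  -- the coefficients
  have h1 : ∀ a ∈ A, ∫ ω, Y S c ω * star (f ω a * star (f ω (a + 1))) ∂PT = C a := by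
    intro a ha
    have ha1 := hA a ha
    have h2 : ∀ ω, Y S c ω * star (f ω a * star (f ω (a + 1))) =
        ∑ x ∈ S, c x * ((f ω x.1 * star (f ω x.2)) * star (f ω a * star (f ω (a + 1)))) := by
      intro ω
      unfold Y
      rw [sum_mul]
      refine sum_congr rfl fun x _ => ?_
      ring
    have hcc : ∀ x : ℕ × ℕ, Continuous fun ω => c x * ((f ω x.1 * star (f ω x.2)) *
        star (f ω a * star (f ω (a + 1)))) := fun x =>
      continuous_const.mul (((f_cont x.1).mul (f_cont x.2).star).mul (hφc a).star)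
    simp only [h2]
    rw [integral_finsetSum _ fun x _ => bdd_integrable (hcc x)]
    refine sum_congr rfl fun x hx => ?_
    rw [integral_const_mul, cross_integral (hS x hx).1 (hS x hx).2 (by omega) (by omega)]
  have hYQ : ∫ ω, Y S c ω * star (Q ω) ∂PT = ((∑ a ∈ A, ‖C a‖ ^ 2 : ℝ) : ℂ) := by
    have h2 : ∀ ω, Y S c ω * star (Q ω) =
        ∑ a ∈ A, star (C a) * (Y S c ω * star (f ω a * star (f ω (a + 1)))) := by
      intro ω
      rw [hQ]
      simp only
      rw [star_sum, mul_sum]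
      refine sum_congr rfl fun a _ => ?_
      rw [star_mul']
      ring
    have hcc : ∀ a : ℕ, Continuous fun ω => star (C a) * (Y S c ω *
        star (f ω a * star (f ω (a + 1)))) := fun a =>
      continuous_const.mul (hYc.mul (hφc a).star)
    simp only [h2]
    rw [integral_finsetSum _ fun a _ => bdd_integrable (hcc a), Complex.ofReal_sum]
    refine sum_congr rfl fun a ha => ?_
    rw [integral_const_mul, h1 a ha, Complex.star_def, mul_comm, Complex.mul_conj,
      Complex.normSq_eq_norm_sq]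
  have hQY : ∫ ω, Q ω * star (Y S c ω) ∂PT = ((∑ a ∈ A, ‖C a‖ ^ 2 : ℝ) : ℂ) := by
    have h2 : ∀ ω, Q ω * star (Y S c ω) = (starRingEnd ℂ) (Y S c ω * star (Q ω)) := by
      intro ω
      rw [← Complex.star_def, star_mul', star_star, mul_comm]
    simp only [h2]
    rw [integral_conj, hYQ, Complex.conj_ofReal]
  have hQQ : ∫ ω, Q ω * star (Q ω) ∂PT = ((∑ a ∈ A, ‖C a‖ ^ 2 : ℝ) : ℂ) := by
    have h2 : ∀ ω, Q ω * star (Q ω) = ∑ a ∈ A, ∑ b ∈ A, (C a * star (C b)) *
        ((f ω a * star (f ω (a + 1))) * star (f ω b * star (f ω (b + 1)))) := by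
      intro ω
      rw [hQ]
      simp only
      rw [star_sum, sum_mul_sum]
      refine sum_congr rfl fun a _ => sum_congr rfl fun b _ => ?_
      rw [star_mul' (C b)]
      ring
    have hcc : ∀ a b : ℕ, Continuous fun ω => (C a * star (C b)) *
        ((f ω a * star (f ω (a + 1))) * star (f ω b * star (f ω (b + 1)))) := fun a b =>
      continuous_const.mul ((hφc a).mul (hφc b).star)
    have hcc2 : ∀ a : ℕ, Continuous fun ω => ∑ b ∈ A, (C a * star (C b)) *
        ((f ω a * star (f ω (a + 1))) * star (f ω b * star (f ω (b + 1)))) := fun a =>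
      continuous_finsetSum _ fun b _ => hcc a b
    simp only [h2]
    rw [integral_finsetSum _ fun a _ => bdd_integrable (hcc2 a), Complex.ofReal_sum]
    refine sum_congr rfl fun a ha => ?_
    have ha1 := hA a ha
    rw [integral_finsetSum _ fun b _ => bdd_integrable (hcc a b)]
    rw [sum_eq_single a]
    · rw [integral_const_mul, cross_integral (by omega) (by omega) (by omega) (by omega),
        if_pos rfl, mul_one, Complex.star_def, Complex.mul_conj, Complex.normSq_eq_norm_sq]
    · intro b hb hba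
      have hb1 := hA b hb
      rw [integral_const_mul, cross_integral (by omega) (by omega) (by omega) (by omega),
        if_neg, mul_zero]
      intro h3
      apply hba
      have h4 : a * b + a = b * a + b := by
        calc a * b + a = a * (b + 1) := by ring
          _ = b * (a + 1) := h3
          _ = b * a + b := by ring
      rw [mul_comm b a] at h4
      omega
    · intro h
      exact absurd ha h
  have hsq : ∀ F : (ℕ → UnitAddCircle) → ℂ, ((∫ ω, ‖F ω‖ ^ 2 ∂PT : ℝ) : ℂ) =
      ∫ ω, F ω * star (F ω) ∂PT := by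
    intro F
    rw [← integral_complex_ofReal]
    congr 1
    ext ω
    rw [Complex.star_def, Complex.mul_conj, Complex.normSq_eq_norm_sq]
  have hdiff : ((∫ ω, ‖Y S c ω - Q ω‖ ^ 2 ∂PT : ℝ) : ℂ) =
      ((∫ ω, ‖Y S c ω‖ ^ 2 ∂PT - ∑ a ∈ A, ‖C a‖ ^ 2 : ℝ) : ℂ) := by
    rw [hsq (fun ω => Y S c ω - Q ω), Complex.ofReal_sub, hsq (Y S c)]
    have h2 : ∀ ω, (Y S c ω - Q ω) * star (Y S c ω - Q ω) = (Y S c ω * star (Y S c ω) -
        Y S c ω * star (Q ω)) - (Q ω * star (Y S c ω) - Q ω * star (Q ω)) := by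
      intro ω
      rw [star_sub]
      ring
    simp only [h2]
    have i1 : Integrable (fun ω => Y S c ω * star (Y S c ω)) PT :=
      bdd_integrable (hYc.mul hYc.star)
    have i2 : Integrable (fun ω => Y S c ω * star (Q ω)) PT := bdd_integrable (hYc.mul hQc.star)
    have i3 : Integrable (fun ω => Q ω * star (Y S c ω)) PT := bdd_integrable (hQc.mul hYc.star)
    have i4 : Integrable (fun ω => Q ω * star (Q ω)) PT := bdd_integrable (hQc.mul hQc.star)
    have e1 : ∫ ω, ((Y S c ω * star (Y S c ω) - Y S c ω * star (Q ω)) -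
        (Q ω * star (Y S c ω) - Q ω * star (Q ω))) ∂PT =
        ∫ ω, (Y S c ω * star (Y S c ω) - Y S c ω * star (Q ω)) ∂PT -
          ∫ ω, (Q ω * star (Y S c ω) - Q ω * star (Q ω)) ∂PT := integral_sub (i1.sub i2) (i3.sub i4)
    have e2 : ∫ ω, (Y S c ω * star (Y S c ω) - Y S c ω * star (Q ω)) ∂PT =
        ∫ ω, Y S c ω * star (Y S c ω) ∂PT - ∫ ω, Y S c ω * star (Q ω) ∂PT := integral_sub i1 i2
    have e3 : ∫ ω, (Q ω * star (Y S c ω) - Q ω * star (Q ω)) ∂PT =
        ∫ ω, Q ω * star (Y S c ω) ∂PT - ∫ ω, Q ω * star (Q ω) ∂PT := integral_sub i3 i4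
    rw [e1, e2, e3, hYQ, hQY, hQQ, sub_self, sub_zero]
  have h3 := Complex.ofReal_injective hdiff
  have h4 : 0 ≤ ∫ ω, ‖Y S c ω - Q ω‖ ^ 2 ∂PT := integral_nonneg fun ω => by positivity
  rw [h3] at h4
  linarith

/-- the kernel on the multiples of a pair -/
lemma E_mult (a g' : ℕ) (ha : 1 ≤ a) (hg : 1 ≤ g') (t : ℝ) :
    E (a * g', g' * (a + 1)) t = ((1 / g' : ℝ) : ℂ) * E (a, a + 1) t := by
  have h1 := E_diag (m := g') (by omega) t
  rw [← h1]
  unfold E
  simp only
  rw [g_mul, g_mul, star_mul']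
  ring

lemma J_low (a : ℕ) (u H : ℝ) (hH : 0 < H) (ha : 1 ≤ a) (haH : H ≤ a)
    (haH2 : ((a : ℝ) + 1) ≤ 3 * H) : 1 / 6 ≤ ‖J (a, a + 1) u (u + H)‖ := by
  have ha0 : (0 : ℝ) < a := by exact_mod_cast ha
  obtain ⟨lam, hlam⟩ : ∃ lam : ℝ, lam = Real.log ((a + 1 : ℕ) : ℝ) - Real.log a := ⟨_, rfl⟩
  have hlam0 : 0 ≤ lam := by
    rw [hlam, sub_nonneg]
    refine Real.log_le_log ha0 ?_
    push_cast
    linarith
  have hlam1 : lam * H ≤ 1 := by
    have h1 : lam ≤ 1 / a := by
      rw [hlam, ← Real.log_div (by positivity) ha0.ne']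
      have h2 := Real.log_le_sub_one_of_pos (show (0 : ℝ) < ((a + 1 : ℕ) : ℝ) / a by positivity)
      refine h2.trans (le_of_eq ?_)
      push_cast
      field_simp
      ring
    calc lam * H ≤ 1 / a * H := mul_le_mul_of_nonneg_right h1 hH.le
      _ ≤ 1 := by
          rw [one_div, inv_mul_le_iff₀ ha0, mul_one]
          exact haH
  have hint : J (a, a + 1) u (u + H) = ((Real.sqrt a)⁻¹ * (Real.sqrt ((a + 1 : ℕ) : ℝ))⁻¹ : ℝ) *
      (Complex.exp ((u * lam : ℝ) * Complex.I) *
        ∫ t in u..(u + H), Complex.exp (((t - u) * lam : ℝ) * Complex.I)) := by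
    unfold J
    rw [← intervalIntegral.integral_const_mul, ← intervalIntegral.integral_const_mul]
    refine intervalIntegral.integral_congr fun t _ => ?_
    rw [E_eq (by simp; omega) (by simp), ← Complex.exp_add]
    simp only
    rw [← hlam]
    congr 2
    push_cast
    ring
  have hcont : Continuous fun t : ℝ => Complex.exp (((t - u) * lam : ℝ) * Complex.I) := by
    fun_prop
  have hre : H / 2 ≤ (∫ t in u..(u + H), Complex.exp (((t - u) * lam : ℝ) * Complex.I)).re := by
    have h1 : (∫ t in u..(u + H), Complex.exp (((t - u) * lam : ℝ) * Complex.I)).re =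
        ∫ t in u..(u + H), Real.cos ((t - u) * lam) := by
      have h2 : ∫ t in u..(u + H), (Complex.exp (((t - u) * lam : ℝ) * Complex.I)).re =
          (∫ t in u..(u + H), Complex.exp (((t - u) * lam : ℝ) * Complex.I)).re :=
        Complex.reCLM.intervalIntegral_comp_comm (hcont.intervalIntegrable (μ := volume) u (u + H))
      rw [← h2]
      refine intervalIntegral.integral_congr fun t _ => ?_
      exact Complex.exp_ofReal_mul_I_re _
    rw [h1]
    have h3 : ∫ _t in u..(u + H), (1 / 2 : ℝ) = H / 2 := by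
      rw [intervalIntegral.integral_const, smul_eq_mul]
      ring
    rw [← h3]
    refine intervalIntegral.integral_mono_on (by linarith) (by simp) ?_ fun t ht => ?_
    · exact Continuous.intervalIntegrable (by fun_prop) _ _
    · have h4 : 0 ≤ (t - u) * lam := mul_nonneg (by linarith [ht.1]) hlam0
      have h5 : (t - u) * lam ≤ 1 := by
        calc (t - u) * lam ≤ H * lam := mul_le_mul_of_nonneg_right (by linarith [ht.2]) hlam0
          _ = lam * H := mul_comm _ _
          _ ≤ 1 := hlam1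
      have h6 := Real.one_sub_sq_div_two_le_cos (x := (t - u) * lam)
      nlinarith
  have hsq : 1 / (3 * H) ≤ (Real.sqrt a)⁻¹ * (Real.sqrt ((a + 1 : ℕ) : ℝ))⁻¹ := by
    rw [← mul_inv, one_div]
    refine inv_anti₀ ?_ ?_
    · have h1 : 0 < Real.sqrt a := Real.sqrt_pos.mpr ha0
      have h2 : 0 < Real.sqrt ((a + 1 : ℕ) : ℝ) := Real.sqrt_pos.mpr (by positivity)
      positivity
    · calc Real.sqrt a * Real.sqrt ((a + 1 : ℕ) : ℝ) ≤
            Real.sqrt ((a + 1 : ℕ) : ℝ) * Real.sqrt ((a + 1 : ℕ) : ℝ) := by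
            refine mul_le_mul_of_nonneg_right (Real.sqrt_le_sqrt ?_) (Real.sqrt_nonneg _)
            push_cast
            linarith
        _ = ((a + 1 : ℕ) : ℝ) := Real.mul_self_sqrt (Nat.cast_nonneg _)
        _ ≤ 3 * H := by
            push_cast
            exact haH2
  rw [hint, norm_mul, norm_mul, Complex.norm_exp_ofReal_mul_I, one_mul, Complex.norm_real,
    Real.norm_of_nonneg (by positivity)]
  have hn := (hre.trans (le_abs_self _)).trans (Complex.abs_re_le_norm _)
  calc (1 / 6 : ℝ) = 1 / (3 * H) * (H / 2) := by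
        field_simp
        norm_num
    _ ≤ _ := mul_le_mul hsq hn (by positivity) (by positivity)

theorem t_LOZ : S_LOZ := by
  refine ⟨1 / 36, by norm_num, ?_⟩
  intro k N u H hk hH hHN
  have hH0 : 0 < H := by linarith
  have hxS : ∀ x ∈ OD (N ^ k), x.1 ≠ 0 ∧ x.2 ≠ 0 := fun x hx => by
    have := mem_OD.mp hx
    omega
  simp only [int_FF]
  set h0 : ℕ := ⌈H⌉₊ with hh0
  have h1 : H ≤ h0 := Nat.le_ceil H
  have h2 : (h0 : ℝ) < H + 1 := Nat.ceil_lt_add_one hH0.le
  have h0pos : 1 ≤ h0 := Nat.one_le_iff_ne_zero.mpr (by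
    intro h
    rw [h] at h1
    norm_num at h1
    linarith)
  have hb := bessel (OD (N ^ k)) (fun x => (dk k N x.1 : ℂ) * dk k N x.2 * J x u (u + H)) hxS
    (Ico h0 (2 * h0)) (fun a ha => h0pos.trans (mem_Ico.mp ha).1)
  refine le_trans ?_ hb
  have hterm : ∀ a ∈ Ico h0 (2 * h0), (1 / 36 : ℝ) ≤ ‖∑ x ∈ OD (N ^ k),
      ((dk k N x.1 : ℂ) * dk k N x.2 * J x u (u + H)) *
        (if x.1 * (a + 1) = a * x.2 then 1 else 0)‖ ^ 2 := by
    intro a ha
    obtain ⟨ha1, ha2⟩ := mem_Ico.mp ha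
    have ha0 : 1 ≤ a := h0pos.trans ha1
    have haR : (0 : ℝ) < a := by exact_mod_cast ha0
    have haH : H ≤ a := h1.trans (by exact_mod_cast ha1)
    have haH2 : (a : ℝ) + 1 ≤ 3 * H := by
      have h3 : ((a + 1 : ℕ) : ℝ) ≤ ((2 * h0 : ℕ) : ℝ) := by exact_mod_cast ha2
      push_cast at h3
      linarith
    have haN : a + 1 ≤ N := by
      have h3 : ((a + 1 : ℕ) : ℝ) ≤ N := by
        push_cast
        linarith
      exact_mod_cast h3
    have hNk : N ≤ N ^ k := Nat.le_self_pow (by omega) N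
    have hJ := J_low a u H hH0 ha0 haH haH2
    set R : ℝ := ∑ x ∈ OD (N ^ k), (dk k N x.1 : ℝ) * dk k N x.2 * (a / x.1) *
      (if x.1 * (a + 1) = a * x.2 then 1 else 0) with hR
    have hsum : ∑ x ∈ OD (N ^ k), ((dk k N x.1 : ℂ) * dk k N x.2 * J x u (u + H)) *
        (if x.1 * (a + 1) = a * x.2 then 1 else 0) = (R : ℂ) * J (a, a + 1) u (u + H) := by
      rw [hR, Complex.ofReal_sum, sum_mul]
      refine sum_congr rfl fun x hx => ?_
      have hx0 := mem_OD.mp hx
      by_cases h3 : x.1 * (a + 1) = a * x.2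
      · rw [if_pos h3, if_pos h3]
        have h4 : a ∣ x.1 := by
          have h5 : a ∣ x.1 * (a + 1) := h3 ▸ dvd_mul_right a x.2
          have h6 : Nat.Coprime a (a + 1) := by simp
          exact h6.dvd_of_dvd_mul_right h5
        obtain ⟨g', hg'⟩ := h4
        have h5 : x.2 = g' * (a + 1) := by
          rw [hg'] at h3
          have h6 : a * x.2 = a * (g' * (a + 1)) := by
            rw [← h3]
            ring
          exact Nat.eq_of_mul_eq_mul_left ha0 h6
        have hg1 : 1 ≤ g' := by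
          rcases Nat.eq_zero_or_pos g' with h6 | h6
          · rw [h6, mul_zero] at hg'
            omega
          · exact h6
        have hxe : x = (a * g', g' * (a + 1)) := Prod.ext hg' h5
        have h6 : J x u (u + H) = ((1 / g' : ℝ) : ℂ) * J (a, a + 1) u (u + H) := by
          unfold J
          rw [← intervalIntegral.integral_const_mul]
          refine intervalIntegral.integral_congr fun t _ => ?_
          rw [hxe]
          exact E_mult a g' ha0 hg1 t
        have h7 : (a : ℝ) / x.1 = 1 / g' := by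
          have : (g' : ℝ) ≠ 0 := by
            have : g' ≠ 0 := by omega
            exact_mod_cast this
          rw [hg']
          push_cast
          field_simp
        rw [h6, h7]
        push_cast
        ring
      · rw [if_neg h3, if_neg h3]
        simp
    have hR1 : 1 ≤ R := by
      have hmem : (a, a + 1) ∈ OD (N ^ k) := by
        rw [mem_OD]
        simp only
        omega
      have h3 : (dk k N (a, a + 1).1 : ℝ) * dk k N (a, a + 1).2 * (a / ((a, a + 1) : ℕ × ℕ).1) *
          (if (a, a + 1).1 * (a + 1) = a * (a, a + 1).2 then 1 else 0) ≤ R := by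
        rw [hR]
        refine single_le_sum (f := fun x : ℕ × ℕ => (dk k N x.1 : ℝ) * dk k N x.2 * (a / x.1) *
          (if x.1 * (a + 1) = a * x.2 then 1 else 0)) (fun x _ => ?_) hmem
        have h4 : (0 : ℝ) ≤ if x.1 * (a + 1) = a * x.2 then 1 else 0 := by
          split_ifs <;> norm_num
        positivity
      refine le_trans ?_ h3
      simp only [if_true]
      rw [div_self haR.ne', mul_one, mul_one]
      have h4 : (1 : ℝ) ≤ dk k N a := by exact_mod_cast dk_pos k N a hk ha0 (by omega)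
      have h5 : (1 : ℝ) ≤ dk k N (a + 1) := by
        exact_mod_cast dk_pos k N (a + 1) hk (by omega) haN
      nlinarith
    rw [hsum, norm_mul, Complex.norm_real, Real.norm_of_nonneg (by linarith)]
    have h8 : (1 / 6 : ℝ) ≤ R * ‖J (a, a + 1) u (u + H)‖ := by nlinarith
    nlinarith
  calc 1 / 36 * H ≤ 1 / 36 * h0 := mul_le_mul_of_nonneg_left h1 (by norm_num)
    _ = ∑ a ∈ Ico h0 (2 * h0), (1 / 36 : ℝ) := by
        rw [sum_const, Nat.card_Ico, nsmul_eq_mul]
        have : 2 * h0 - h0 = h0 := by omega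
        rw [this]
        ring
    _ ≤ _ := sum_le_sum hterm

end

end Pool.Agent.Q275.ZS
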